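import Mathlib
import Pool.Agent.Work.MP_518c18_al.Main
import Pool.Agent.Work.MP_518c18_al.Solv

set_option autoImplicit false

namespace Pool.Agent.Results.MP_518c18_al.RadicalLinearBound

open Subgroup Pool.Agent.Work.MP_518c18_al

/-- Under the hypotheses of the question, let `n` be the number of orbit sizes of `G` on `V`.
If `R` is a solvable normal subgroup of a subgroup `H` of `G` and `H` is generated by `R` and `m`
further elements, then `H` is generated by at most `max (3 (n - 1)) m` elements.
For solvable `H` (take `R = H`, `m = 0`) this reads `d(H) ≤ 3 (n - 1)`. -/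
theorem result (G : Type) [Group G] [Finite G] (F : Type) [Field F]
    (V : Type) [AddCommGroup V] [Module F V] [FiniteDimensional F V]
    (ρ : Representation F G V) (hρ : Function.Injective ρ)
    (hF : Cardinal.mk (Subgroup G) < Cardinal.mk F)
    (hchar : ringChar F = 0 ∨ Nat.Coprime (ringChar F) (Nat.card G))
    (H R : Subgroup G) (hRH : R ≤ H) (hnorm : H ≤ normalizer (R : Set G))
    (hsolv : Group.IsSolvable R)
    (t : Finset G) (ht : R ⊔ Subgroup.closure (t : Set G) = H) :
    ∃ s : Finset G,
      s.card ≤ max (3 * (Set.ncard {k : ℕ | ∃ v : V,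
        Set.ncard (Set.range fun g : G => ρ g v) = k} - 1)) t.card ∧
      Subgroup.closure (s : Set G) = H := by
  classical
  set n := Set.ncard {k : ℕ | ∃ v : V, Set.ncard (Set.range fun g : G => ρ g v) = k} with hn
  have hF' : ∀ f : F → Subgroup G, ¬ Function.Injective f := by
    intro f hf
    exact absurd (Cardinal.mk_le_of_injective hf) (not_le.mpr hF)
  have hn' : n = Set.ncard (orbitSizes ρ) := rfl
  -- bound for p-subgroups of `G`
  have hpG : ∀ p : ℕ, p.Prime → ∀ P : Subgroup G, IsPGroup p P → P ≠ ⊥ →
      2 ≤ n ∧ ∃ s : Finset G, s.card ≤ 3 * (n - 1) - 1 ∧ Subgroup.closure (s : Set G) = P := by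
    intro p hp P hP hPne
    have : Fact p.Prime := ⟨hp⟩
    have hpF : (p : F) ≠ 0 := by
      intro h0
      have h1 : ringChar F ∣ p := (ringChar.spec F p).mp h0
      obtain ⟨k, hk⟩ := IsPGroup.iff_card.mp hP
      have hk0 : k ≠ 0 := by
        rintro rfl
        rw [pow_zero, Subgroup.card_eq_one] at hk
        exact hPne hk
      have hpG : p ∣ Nat.card G :=
        ((dvd_pow_self p hk0).trans (dvd_of_eq hk.symm)).trans (Subgroup.card_subgroup_dvd_card P)
      rcases hchar with h | h
      · rw [h, zero_dvd_iff] at h1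
        exact hp.ne_zero h1
      · rcases (Nat.dvd_prime hp).mp h1 with h2 | h2
        · exact CharP.ringChar_ne_one h2
        · rw [h2] at h
          exact hp.one_lt.ne' (Nat.Coprime.eq_one_of_dvd h hpG)
    have hfix : fixSub ρ P ⊤ = ⊥ := by
      rw [eq_bot_iff]
      intro g hg
      rw [Subgroup.mem_bot]
      apply hρ
      rw [map_one]
      ext v
      exact hg.2 v trivial
    obtain ⟨a, ha, h1, h2⟩ := pgroup_main ρ hpF (Nat.card P + Module.finrank F (⊤ : Submodule F V))
      P hP ⊤ (fun _ _ _ _ => trivial) (by rw [hfix]; exact bot_lt_iff_ne_bot.mpr hPne) le_rfl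
    have h3 := succ_le_ncard_orbitSizes ρ hF' h1
    rw [hfix] at h2
    obtain ⟨s, hs, hsc⟩ := h2 P bot_le le_rfl
    rw [bot_sup_eq] at hsc
    rw [← hn'] at h3
    exact ⟨by omega, s, by omega, hsc⟩
  by_cases hn2 : 2 ≤ n
  swap
  · -- then `G` is trivial
    have hG : ∀ P : Subgroup G, P = ⊥ := by
      intro P
      by_contra hne
      have hcard : Nat.card P ≠ 1 := by rwa [Ne, Subgroup.card_eq_one]
      obtain ⟨p, hp, hpd⟩ := Nat.exists_prime_and_dvd hcard
      have : Fact p.Prime := ⟨hp⟩
      obtain ⟨x, hx⟩ := exists_prime_orderOf_dvd_card' p hpd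
      have hx' : orderOf (x : G) = p := by rw [← hx]; exact Subgroup.orderOf_coe x
      refine hn2 (hpG p hp (zpowers (x : G)) ?_ ?_).1
      · refine IsPGroup.of_card (n := 1) ?_
        rw [Nat.card_zpowers, hx', pow_one]
      · rw [Ne, zpowers_eq_bot]
        intro h
        rw [h, orderOf_one] at hx'
        exact hp.one_lt.ne hx'
    exact ⟨∅, by simp, by simp [hG H]⟩
  · -- transfer to the group `H`
    have hRn : (R.subgroupOf H).Normal := (normal_subgroupOf_iff_le_normalizer hRH).mpr hnorm
    have hRs : Group.IsSolvable (R.subgroupOf H) :=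
      Group.isSolvable_of_isSolvable_injective
        (f := (subgroupOfEquivOfLe hRH).toMonoidHom) (subgroupOfEquivOfLe hRH).injective
    have htrans : ∀ (P : Subgroup H) (r : ℕ),
        (∃ s : Finset G, s.card ≤ r ∧ Subgroup.closure (s : Set G) = P.map H.subtype) →
        ∃ s : Finset H, s.card ≤ r ∧ Subgroup.closure (s : Set H) = P := by
      rintro P r ⟨s, hs, hsc⟩
      have hsub : ∀ x ∈ s, x ∈ H := by
        intro x hx
        have h1 : x ∈ P.map H.subtype := by
          rw [← hsc]
          exact subset_closure hx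
        obtain ⟨y, _, rfl⟩ := h1
        exact y.2
      refine ⟨s.attach.image fun x : {x // x ∈ s} => (⟨x.1, hsub x.1 x.2⟩ : H), ?_, ?_⟩
      · exact Finset.card_image_le.trans (by simpa using hs)
      · apply Subgroup.map_injective H.subtype_injective
        rw [MonoidHom.map_closure]
        have h1 : (H.subtype '' ((s.attach.image fun x : {x // x ∈ s} =>
            (⟨x.1, hsub x.1 x.2⟩ : H) : Finset H) : Set H)) = (s : Set G) := by
          ext x
          constructor
          · rintro ⟨y, hy, rfl⟩
            rw [Finset.mem_coe, Finset.mem_image] at hy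
            obtain ⟨a, _, rfl⟩ := hy
            exact a.2
          · intro hx
            refine ⟨⟨x, hsub x hx⟩, ?_, rfl⟩
            rw [Finset.mem_coe, Finset.mem_image]
            exact ⟨⟨x, hx⟩, Finset.mem_attach _ _, rfl⟩
        rw [h1, hsc]
    have hp : ∀ p : ℕ, p.Prime → ∀ P : Subgroup H, IsPGroup p P →
        ∃ s : Finset H, s.card ≤ 3 * (n - 1) - 1 ∧ Subgroup.closure (s : Set H) = P := by
      intro p hp P hP
      apply htrans
      by_cases hne : P.map H.subtype = ⊥
      · exact ⟨∅, by simp, by simp [hne]⟩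
      · exact (hpG p hp _ (hP.map H.subtype) hne).2
    have htH : ∀ x ∈ t, x ∈ H := by
      intro x hx
      rw [← ht]
      exact (le_sup_right : _ ≤ R ⊔ _) (subset_closure hx)
    obtain ⟨s, hs, hsc⟩ := radical_gen (Nat.card H) H le_rfl (R.subgroupOf H) hRn hRs
      (3 * (n - 1) - 1) (max (3 * (n - 1)) t.card) (by omega) hp
      ⟨t.attach.image fun x : {x // x ∈ t} => (⟨x.1, htH x.1 x.2⟩ : H),
        (Finset.card_image_le.trans (by simp)), by
          apply Subgroup.map_injective H.subtype_injective
          rw [Subgroup.map_sup, MonoidHom.map_closure, Subgroup.map_subgroupOf_eq_of_le hRH]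
          have h1 : (H.subtype '' ((t.attach.image fun x : {x // x ∈ t} =>
              (⟨x.1, htH x.1 x.2⟩ : H) : Finset H) : Set H)) = (t : Set G) := by
            ext x
            constructor
            · rintro ⟨y, hy, rfl⟩
              rw [Finset.mem_coe, Finset.mem_image] at hy
              obtain ⟨a, _, rfl⟩ := hy
              exact a.2
            · intro hx
              refine ⟨⟨x, htH x hx⟩, ?_, rfl⟩
              rw [Finset.mem_coe, Finset.mem_image]
              exact ⟨⟨x, hx⟩, Finset.mem_attach _ _, rfl⟩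
          rw [h1, ht, ← MonoidHom.range_eq_map, H.range_subtype]⟩
    refine ⟨s.image H.subtype, Finset.card_image_le.trans hs, ?_⟩
    rw [Finset.coe_image, ← MonoidHom.map_closure, hsc, ← MonoidHom.range_eq_map, H.range_subtype]

end Pool.Agent.Results.MP_518c18_al.RadicalLinearBound
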